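import Pool.Agent.W2helper5.QD.Stm

/-!
Piece BAND of project QD (helper5): the boundary of bodies near the regular polygon close to the
two axes of the quadrisection at angle 0.
-/

set_option autoImplicit false

namespace Pool.Agent.W2helper50.QD

open MeasureTheory Set Pool.V11275.Quad Pool.Agent.Helper717.Hull1 Pool.Agent.Helper717.Hull2
  Pool.Agent.W2helper5.QD

lemma norm_sq (x : E2) : ‖x‖ ^ 2 = x 0 ^ 2 + x 1 ^ 2 := by
  rw [EuclideanSpace.norm_sq_eq]
  simp [Fin.sum_univ_two]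

lemma abs0 (x : E2) : |x 0| ≤ ‖x‖ := by
  apply abs_le_of_sq_le_sq _ (norm_nonneg _)
  rw [norm_sq]
  nlinarith [sq_nonneg (x 1)]

lemma abs1 (x : E2) : |x 1| ≤ ‖x‖ := by
  apply abs_le_of_sq_le_sq _ (norm_nonneg _)
  rw [norm_sq]
  nlinarith [sq_nonneg (x 0)]

lemma norm_h (t : ℝ) : ‖(!₂[t, 0] : E2)‖ = |t| := by
  rw [← abs_norm, ← sq_eq_sq_iff_abs_eq_abs, norm_sq]
  simp

lemma norm_v (t : ℝ) : ‖(!₂[0, t] : E2)‖ = |t| := by
  rw [← abs_norm, ← sq_eq_sq_iff_abs_eq_abs, norm_sq]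
  simp

lemma conv_ball {K : Set E2} (hK : Convex ℝ K) {c0 w z : E2} {r σ lam : ℝ}
    (hb : ∀ x : E2, ‖x‖ ≤ r → c0 + x ∈ K) (hw : w ∈ K) (h0 : 0 ≤ lam) (h1 : lam ≤ 1 - σ)
    (hσ : 0 < σ) (hz : ‖z‖ ≤ σ * r) (hr : 0 ≤ r) :
    lam • w + (1 - lam) • c0 + z ∈ K := by
  have h2 : 0 < 1 - lam := by linarith
  have h3 : c0 + (1 - lam)⁻¹ • z ∈ K := hb _ (by
    rw [norm_smul, Real.norm_eq_abs, abs_of_pos (inv_pos.2 h2), inv_mul_le_iff₀ h2]
    exact hz.trans (mul_le_mul_of_nonneg_right (by linarith) hr))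
  have h4 := hK hw h3 h0 h2.le (by ring)
  convert h4 using 1
  rw [smul_add, smul_smul, mul_inv_cancel₀ h2.ne', one_smul, add_assoc]

/-- the estimate of the coefficient -/
lemma coef {a b τ t η : ℝ} (hb : 0 < b) (hb1 : b ≤ 1) (ht : 0 < t) (htτ : t ≤ τ) (ht1 : t ≤ 1)
    (ha : a ≤ b - τ) (hη0 : 0 ≤ η) (hη : η ≤ t / 2) : a / (1 - η) / b ≤ 1 - t / 2 := by
  have h1 : 0 < 1 - η := by linarith
  rw [div_div, div_le_iff₀ (mul_pos h1 hb)]
  have h2 : 1 - t ≤ (1 - t / 2) * (1 - η) := by nlinarith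
  have h3 : (1 - t) * b ≤ (1 - t / 2) * (1 - η) * b := mul_le_mul_of_nonneg_right h2 hb.le
  nlinarith

set_option maxHeartbeats 4000000 in
theorem p_BAND : P_BAND := by
  intro hREG hT1 m hm hodd hA hq1 hq2 τ hτ
  obtain ⟨hBody, ⟨ρ0, hρ0, hdisc⟩, hunit, hedge, hsec, -, -⟩ := hREG m (by omega)
  have hm0 : (0 : ℝ) < m := by
    have : 0 < m := by omega
    exact_mod_cast this
  have hα0 : 0 < al m := div_pos Real.pi_pos hm0
  have hα5 : al m ≤ Real.pi / 5 := by
    unfold al
    apply div_le_div_of_nonneg_left Real.pi_pos.le (by norm_num)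
    exact_mod_cast hm
  obtain ⟨-, hxi0, hxi1⟩ := hT1 (al m) hα0 hα5
  have hpi := Real.pi_pos
  have hc0 : 0 < Real.cos (al m) := Real.cos_pos_of_mem_Ioo ⟨by linarith, by linarith⟩
  have hc1 : Real.cos (al m) ≤ 1 := Real.cos_le_one _
  have hs0 : 0 < Real.sin (al m) := Real.sin_pos_of_pos_of_lt_pi hα0 (by linarith)
  have hs2 : 0 < Real.sin (al m / 2) := Real.sin_pos_of_pos_of_lt_pi (by linarith) (by linarith)
  have hs21 : Real.sin (al m / 2) ≤ 1 := Real.sin_le_one _
  have hc2 : 1 / 2 ≤ Real.cos (al m / 2) := by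
    have h := Real.one_sub_sq_div_two_le_cos (x := al m / 2)
    have h4 := Real.pi_le_four
    nlinarith
  set c := Real.cos (al m) with hc
  set x0 := sg m * xi (al m) with hx0
  have hsg : sg m = 1 ∨ sg m = -1 := by
    unfold sg
    split_ifs
    · exact Or.inl rfl
    · exact Or.inr rfl
  have hsg2 : sg m * sg m = 1 := by rcases hsg with h | h <;> rw [h] <;> norm_num
  have hsga : |sg m| = 1 := by rcases hsg with h | h <;> rw [h] <;> norm_num
  have hx0a : |x0| = xi (al m) := by rw [hx0, abs_mul, hsga, one_mul, abs_of_pos hxi0]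
  have hxic : xi (al m) < c := by
    have h1 : Real.cos (Real.pi / 5) ≤ c := by
      rw [hc]
      exact Real.cos_le_cos_of_nonneg_of_le_pi hα0.le (by linarith) hα5
    have h2 : (1 : ℝ) / 2 < Real.cos (Real.pi / 5) := by
      rw [← Real.cos_pi_div_three]
      exact Real.cos_lt_cos_of_nonneg_of_le_pi (by linarith) (by linarith) (by linarith)
    nlinarith
  have hy0 : 0 < y0 (al m) := by
    unfold y0
    exact div_pos (by positivity) (by linarith)
  have hy1 : y0 (al m) ≤ 1 := by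
    have h1 := hunit _ hq1
    have h2 := abs1 (!₂[x0, y0 (al m)] : E2)
    have h3 : (!₂[x0, y0 (al m)] : E2) 1 = y0 (al m) := rfl
    rw [h3, abs_of_pos hy0] at h2
    linarith
  -- vertices
  have hw1 : (!₂[1, 0] : E2) ∈ P m := by
    apply subset_convexHull ℝ _
    refine ⟨0, ?_⟩
    apply ext2 <;> simp [w, e]
  obtain ⟨k, hk⟩ : ∃ k : ℕ, m = 2 * k + 1 := ⟨m / 2, by omega⟩
  have hkα : (2 * ((k : ℤ) : ℝ) + 1) * al m = Real.pi := by
    unfold al
    rw [hk]
    push_cast
    field_simp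
  have hkα1 : 2 * ((k : ℤ) : ℝ) * al m = Real.pi - al m := by linarith
  have hkα2 : (2 * ((k : ℤ) : ℝ) + 2) * al m = al m + Real.pi := by linarith
  have hwc : (!₂[-c, 0] : E2) ∈ P m := by
    apply hsec k
    · rw [hkα1]
      simp only [cr, e_zero', e_one', Real.sin_pi_sub, Real.cos_pi_sub]
      change 0 ≤ -c * 0 - Real.sin (al m) * (-c)
      have h3 := mul_pos hs0 hc0
      linarith
    · rw [hkα2]
      simp only [cr, e_zero', e_one', Real.sin_add_pi, Real.cos_add_pi]
      change 0 ≤ -c * -Real.sin (al m) - 0 * -c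
      have h3 := mul_pos hs0 hc0
      linarith
    · rw [hkα]
      simp only [dot, e_zero', e_one', Real.sin_pi, Real.cos_pi]
      change -1 * (-c) + 0 * 0 ≤ c
      linarith
  have hleft : ∀ x ∈ P m, -c ≤ x 0 := by
    intro x hx
    have h := hedge k x hx
    rw [hkα] at h
    simp only [dot, e_zero', e_one', Real.sin_pi, Real.cos_pi] at h
    linarith
  have hright : ∀ x ∈ P m, x 0 ≤ 1 := fun x hx => (le_abs_self _).trans ((abs0 x).trans (hunit x hx))
  -- discs
  have hd0 : ∀ x : E2, ‖x‖ ≤ ρ0 → (0 : E2) + x ∈ P m := fun x hx => by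
    rw [zero_add]; exact hdisc x hx
  obtain ⟨r, hr0, hrρ, hd1⟩ : ∃ r : ℝ, 0 < r ∧ r ≤ ρ0 ∧
      ∀ x : E2, ‖x‖ ≤ r → (!₂[x0, 0] : E2) + x ∈ P m := by
    have hxc : xi (al m) / c < 1 := (div_lt_one hc0).2 hxic
    have hxc0 : 0 < xi (al m) / c := div_pos hxi0 hc0
    refine ⟨(1 - xi (al m) / c) * ρ0, mul_pos (by linarith) hρ0, by nlinarith, fun x hx => ?_⟩
    rcases hsg with h | h
    · have h1 := conv_ball (lam := xi (al m)) hBody.conv hd0 hw1 hxi0.le
        (σ := 1 - xi (al m)) (by linarith) (by linarith) (z := x) (hx.trans ?_) hρ0.le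
      · convert h1 using 1
        apply ext2 <;> simp [hx0, h]
      · apply mul_le_mul_of_nonneg_right _ hρ0.le
        have : xi (al m) ≤ xi (al m) / c := by
          rw [le_div_iff₀ hc0]; nlinarith
        linarith
    · have h1 := conv_ball (lam := xi (al m) / c) hBody.conv hd0 hwc hxc0.le
        (σ := 1 - xi (al m) / c) (by linarith) (by linarith) (z := x) hx hρ0.le
      convert h1 using 1
      apply ext2
      · simp [hx0, h, div_mul_cancel₀ _ hc0.ne']
      · simp
  -- constants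
  set t := min τ 1 with ht
  have ht0 : 0 < t := lt_min hτ one_pos
  have htτ : t ≤ τ := min_le_left _ _
  have ht1 : t ≤ 1 := min_le_right _ _
  set s := min r 1 with hs
  have hs0' : 0 < s := lt_min hr0 one_pos
  have hsr : s ≤ r := min_le_left _ _
  have hs1 : s ≤ 1 := min_le_right _ _
  have hts : 0 < t * s := mul_pos ht0 hs0'
  have hts1 : t * s ≤ t := by nlinarith
  have htsr : t * s ≤ t * r := mul_le_mul_of_nonneg_left hsr ht0.le
  refine ⟨t * s / 8, t * s / 16, by linarith, by linarith, by linarith, ?_⟩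
  intro η hη0 hη R hR hN
  obtain ⟨hN1, hN2⟩ := hN
  have h1η : 0 < 1 - η := by linarith
  have hηt : η ≤ t / 2 := by linarith
  have hinv : (1 - η)⁻¹ ≤ 2 := by
    rw [inv_le_comm₀ h1η two_pos]; linarith
  have hinv0 : 0 < (1 - η)⁻¹ := inv_pos.2 h1η
  have hback : ∀ p : E2, (1 - η)⁻¹ • p ∈ P m → p ∈ R := by
    intro p hp
    have h := hN1 _ hp
    rwa [smul_smul, mul_inv_cancel₀ h1η.ne', one_smul] at h
  refine ⟨?_, ?_, ?_, ?_, ?_⟩
  · intro p hp
    obtain ⟨y, hy, rfl⟩ := hN2 p hp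
    rw [norm_smul, Real.norm_eq_abs, abs_of_pos (by linarith)]
    have := hunit y hy
    have := norm_nonneg y
    nlinarith
  · intro p hp _
    obtain ⟨y, hy, rfl⟩ := hN2 p hp
    have h1 := hleft y hy
    have h2 := hright y hy
    simp only [PiLp.smul_apply, smul_eq_mul]
    have h3 := mul_le_mul_of_nonneg_left h1 (by linarith : 0 ≤ 1 + η)
    have h4 := mul_le_mul_of_nonneg_left h2 (by linarith : 0 ≤ 1 + η)
    have h5 := mul_le_mul_of_nonneg_left hc1 hη0
    constructor
    · linarith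
    · linarith
  · intro p hp1 hp2 hp3
    apply hback
    have hz : ‖(!₂[0, (1 - η)⁻¹ * p 1] : E2)‖ ≤ t / 2 * ρ0 := by
      rw [norm_v, abs_mul, abs_of_pos hinv0]
      have h1 : (1 - η)⁻¹ * |p 1| ≤ 2 * (t * s / 8) :=
        mul_le_mul hinv hp1 (abs_nonneg _) (by norm_num)
      have h2 : t * r ≤ t * ρ0 := mul_le_mul_of_nonneg_left hrρ ht0.le
      nlinarith
    rcases le_total 0 (p 0) with h | h
    · have h1 := conv_ball (lam := p 0 / (1 - η) / 1) hBody.conv hd0 hw1
        (by positivity) (coef one_pos le_rfl ht0 htτ ht1 hp3 hη0 hηt) (by linarith) hz hρ0.le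
      convert h1 using 1
      apply ext2
      · simp [div_eq_inv_mul]
      · simp
    · have h1 := conv_ball (lam := (- p 0) / (1 - η) / c) hBody.conv hd0 hwc
        (div_nonneg (div_nonneg (by linarith) h1η.le) hc0.le)
        (coef hc0 hc1 ht0 htτ ht1 (by linarith) hη0 hηt) (by linarith) hz hρ0.le
      convert h1 using 1
      apply ext2
      · simp only [PiLp.smul_apply, PiLp.add_apply, smul_eq_mul, smul_zero, PiLp.zero_apply]
        change (1 - η)⁻¹ * p 0 = - p 0 / (1 - η) / c * (-c) + 0 + 0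
        field_simp
        ring
      · simp
  · intro p hp hp0
    obtain ⟨y, hy, rfl⟩ := hN2 p hp
    have h1 := hA y hy
    simp only [PiLp.smul_apply, smul_eq_mul] at hp0 ⊢
    have h2 : sg m * ((1 + η) * y 0) ≤ xi (al m) + t * s / 8 := by
      have h3 : sg m * ((1 + η) * y 0 - x0) ≤ t * s / 8 := by
        refine (le_abs_self _).trans ?_
        rw [abs_mul, hsga, one_mul]
        exact hp0
      have h4 : sg m * x0 = xi (al m) := by rw [hx0, ← mul_assoc, hsg2, one_mul]
      linarith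
    rw [abs_mul, abs_of_pos (by linarith : 0 < 1 + η)]
    have h5 : (1 + η) * |y 1| * Real.cos (al m / 2) ≤
        (1 + η) * c + Real.sin (al m / 2) * (sg m * ((1 + η) * y 0)) := by nlinarith
    have h6 : y0 (al m) * Real.cos (al m / 2) = c + xi (al m) * Real.sin (al m / 2) := by
      unfold y0
      rw [div_mul_cancel₀ _ (by linarith : Real.cos (al m / 2) ≠ 0)]
    have h7 : (1 + η) * |y 1| * Real.cos (al m / 2) ≤
        (y0 (al m) + τ) * Real.cos (al m / 2) := by
      have h8 : Real.sin (al m / 2) * (sg m * ((1 + η) * y 0)) ≤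
          Real.sin (al m / 2) * (xi (al m) + t * s / 8) := mul_le_mul_of_nonneg_left h2 hs2.le
      have h9 : Real.sin (al m / 2) * (t * s / 8) ≤ t * s / 8 := by nlinarith
      have h10 : τ * (1 / 2) ≤ τ * Real.cos (al m / 2) := mul_le_mul_of_nonneg_left hc2 hτ.le
      nlinarith
    exact le_of_mul_le_mul_right h7 (by linarith)
  · intro p hp0 hp1
    apply hback
    have hx0t : |x0| ≤ 1 := by rw [hx0a]; linarith
    have hz : ‖(!₂[(1 - η)⁻¹ * p 0 - x0, 0] : E2)‖ ≤ t / 2 * r := by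
      rw [norm_h]
      have h1 : (1 - η)⁻¹ * p 0 - x0 = (1 - η)⁻¹ * ((p 0 - x0) + η * x0) := by
        field_simp
        ring
      rw [h1, abs_mul, abs_of_pos hinv0]
      have h2 : |p 0 - x0 + η * x0| ≤ t * s / 8 + t * s / 16 := by
        refine (abs_add_le _ _).trans (add_le_add hp0 ?_)
        rw [abs_mul, abs_of_nonneg hη0]
        nlinarith [abs_nonneg x0]
      have h3 : (1 - η)⁻¹ * |p 0 - x0 + η * x0| ≤ 2 * (t * s / 8 + t * s / 16) :=
        mul_le_mul hinv h2 (abs_nonneg _) (by norm_num)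
      nlinarith
    have hlam : |p 1| / (1 - η) / y0 (al m) ≤ 1 - t / 2 :=
      coef hy0 hy1 ht0 htτ ht1 hp1 hη0 hηt
    have hlam0 : 0 ≤ |p 1| / (1 - η) / y0 (al m) :=
      div_nonneg (div_nonneg (abs_nonneg _) h1η.le) hy0.le
    rcases le_total 0 (p 1) with h | h
    · have h1 := conv_ball (lam := |p 1| / (1 - η) / y0 (al m)) hBody.conv hd1 hq1 hlam0 hlam
        (by linarith) hz hr0.le
      convert h1 using 1
      rw [abs_of_nonneg h]
      apply ext2
      · simp only [PiLp.smul_apply, PiLp.add_apply, smul_eq_mul]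
        change (1 - η)⁻¹ * p 0 = (p 1) / (1 - η) / y0 (al m) * x0 +
          (1 - (p 1) / (1 - η) / y0 (al m)) * x0 + ((1 - η)⁻¹ * p 0 - x0)
        ring
      · simp only [PiLp.smul_apply, PiLp.add_apply, smul_eq_mul]
        change (1 - η)⁻¹ * p 1 = (p 1) / (1 - η) / y0 (al m) * (y0 (al m)) +
          (1 - (p 1) / (1 - η) / y0 (al m)) * 0 + 0
        field_simp
        ring
    · have h1 := conv_ball (lam := |p 1| / (1 - η) / y0 (al m)) hBody.conv hd1 hq2 hlam0 hlam
        (by linarith) hz hr0.le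
      convert h1 using 1
      rw [abs_of_nonpos h]
      apply ext2
      · simp only [PiLp.smul_apply, PiLp.add_apply, smul_eq_mul]
        change (1 - η)⁻¹ * p 0 = (-p 1) / (1 - η) / y0 (al m) * x0 +
          (1 - (-p 1) / (1 - η) / y0 (al m)) * x0 + ((1 - η)⁻¹ * p 0 - x0)
        ring
      · simp only [PiLp.smul_apply, PiLp.add_apply, smul_eq_mul]
        change (1 - η)⁻¹ * p 1 = (-p 1) / (1 - η) / y0 (al m) * (-y0 (al m)) +
          (1 - (-p 1) / (1 - η) / y0 (al m)) * 0 + 0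
        field_simp
        ring

end Pool.Agent.W2helper50.QD
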